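import Pool.Agent.Run7.h19.HP.Iface

set_option autoImplicit false

open Module Submodule Finset Pool.Agent.H99.SubDeg Run7.h19.HP

namespace Run7.h81.HP

theorem exists_inj {K W : Type} [Field K] [AddCommGroup W] [Module K W] [FiniteDimensional K W]
    (m : ℕ) (h : finrank K W ≤ m) : ∃ f : W →ₗ[K] (Fin m → K), Function.Injective f := by
  refine ⟨(Function.ExtendByZero.linearMap K (Fin.castLE h)).comp
    (finBasis K W).equivFun.toLinearMap, ?_⟩
  intro x y hxy
  apply (finBasis K W).equivFun.injective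
  funext i
  have h1 := congrFun hxy (Fin.castLE h i)
  simp only [LinearMap.comp_apply, Function.ExtendByZero.linearMap_apply] at h1
  rw [(Fin.castLE_injective h).extend_apply, (Fin.castLE_injective h).extend_apply] at h1
  exact h1

theorem t_NEAR : S_NEAR := by
  intro K _ _ V _ _ _ k τ j T hK hV hk hT hτk hk8 hj
  classical
  have i1 : Finite (T →ₗ[K] (Fin 10 → K)) :=
    Finite.of_injective (fun f => (f : T → Fin 10 → K)) DFunLike.coe_injective
  have i2 : Finite ((Fin 11 → K) →ₗ[K] V) :=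
    Finite.of_injective (fun f => (f : (Fin 11 → K) → V)) DFunLike.coe_injective
  have i3 : Fintype ((T →ₗ[K] (Fin 10 → K)) × ((Fin 11 → K) →ₗ[K] V)) := Fintype.ofFinite _
  let Φ : (T →ₗ[K] (Fin 10 → K)) × ((Fin 11 → K) →ₗ[K] V) → Submodule K V := fun p =>
    (LinearMap.ker p.1).map T.subtype ⊔ LinearMap.range p.2
  have hcov : (univ.filter (fun S : Submodule K V => finrank K S = j ∧
      τ ≤ finrank K (S ⊓ T : Submodule K V) + 10)) ⊆ univ.image Φ := by
    intro S hS
    simp only [Finset.mem_filter, Finset.mem_univ, true_and] at hS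
    obtain ⟨hSj, hST⟩ := hS
    -- the part in `T`
    set R : Submodule K T := S.comap T.subtype with hR
    have hRm : R.map T.subtype = S ⊓ T := by
      rw [hR, Submodule.map_comap_subtype, inf_comm]
    have hRf : finrank K R = finrank K (S ⊓ T : Submodule K V) := by
      rw [← hRm, Submodule.finrank_map_subtype_eq]
    have hq : finrank K (T ⧸ R) ≤ 10 := by
      have := Submodule.finrank_quotient_add_finrank R
      omega
    obtain ⟨g, hg⟩ := exists_inj 10 hq
    -- the rest
    obtain ⟨C', hC'⟩ := Submodule.exists_isCompl (S ⊓ T)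
    have hC1 : (S ⊓ T) ⊔ (C' ⊓ S) = S := by
      rw [← sup_inf_assoc_of_le C' (inf_le_left : S ⊓ T ≤ S), hC'.sup_eq_top, top_inf_eq]
    have hC2 : (S ⊓ T) ⊓ (C' ⊓ S) = ⊥ := by
      rw [← inf_assoc, hC'.inf_eq_bot, bot_inf_eq]
    have hCf : finrank K (C' ⊓ S : Submodule K V) ≤ 11 := by
      have := Submodule.finrank_sup_add_finrank_inf_eq (S ⊓ T) (C' ⊓ S)
      rw [hC1, hC2, finrank_bot] at this
      omega
    obtain ⟨i, hi⟩ := exists_inj 11 hCf
    obtain ⟨r, hr⟩ := i.exists_leftInverse_of_injective (LinearMap.ker_eq_bot.2 hi)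
    rw [Finset.mem_image]
    refine ⟨(g.comp R.mkQ, (C' ⊓ S : Submodule K V).subtype.comp r), Finset.mem_univ _, ?_⟩
    have h1 : LinearMap.ker (g.comp R.mkQ) = R := by
      rw [LinearMap.ker_comp_of_ker_eq_bot _ (LinearMap.ker_eq_bot.2 hg), Submodule.ker_mkQ]
    have h2 : LinearMap.range ((C' ⊓ S : Submodule K V).subtype.comp r) = C' ⊓ S := by
      have h3 : LinearMap.range r = ⊤ := by
        rw [LinearMap.range_eq_top]
        intro x
        exact ⟨i x, by rw [← LinearMap.comp_apply, hr]; rfl⟩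
      rw [LinearMap.range_comp, h3, Submodule.map_top, Submodule.range_subtype]
    show (LinearMap.ker (g.comp R.mkQ)).map T.subtype ⊔
      LinearMap.range ((C' ⊓ S : Submodule K V).subtype.comp r) = S
    rw [h1, h2, hRm, hC1]
  have hcard : Fintype.card ((T →ₗ[K] (Fin 10 → K)) × ((Fin 11 → K) →ₗ[K] V)) =
      2 ^ (τ * 10) * 2 ^ (11 * (2 * k + 1)) := by
    rw [← Nat.card_eq_fintype_card, Nat.card_prod, Module.natCard_eq_pow_finrank (K := K),
      Module.natCard_eq_pow_finrank (K := K) (V := (Fin 11 → K) →ₗ[K] V),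
      Module.finrank_linearMap, Module.finrank_linearMap, hK, hT, hV]
    simp
  calc _ ≤ (univ.image Φ).card := Finset.card_le_card hcov
    _ ≤ (univ : Finset ((T →ₗ[K] (Fin 10 → K)) × ((Fin 11 → K) →ₗ[K] V))).card :=
        Finset.card_image_le
    _ = 2 ^ (τ * 10) * 2 ^ (11 * (2 * k + 1)) := by rw [Finset.card_univ, hcard]
    _ = 2 ^ (τ * 10 + 11 * (2 * k + 1)) := by rw [← pow_add]
    _ ≤ 2 ^ (40 * k) := Nat.pow_le_pow_right (by norm_num) (by omega)

end Run7.h81.HP
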